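import Pool.Agent.Y987.SZ.PolyU

set_option autoImplicit false

/-!
# Splittings `n = a + b` with `a b - 1` and `a b + 1` almost prime, and progressions of such `a`
-/

namespace Pool.Agent.Results.MP_f8fff1_nt.AlmostPrimeSplittings

/-- `0 < a < n`, and no number `a (n - a) + e`, `e ∈ E`, has a prime factor `≤ y`. -/
def Rough (n : ℕ) (E : Finset ℤ) (y : ℝ) (a : ℕ) : Prop :=
  0 < a ∧ a < n ∧ ∀ e ∈ E, ∀ p : ℕ, p.Prime → (p : ℤ) ∣ (a : ℤ) * ((n : ℤ) - a) + e → y < (p : ℝ)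

/-- `0 < a < n`, and every number `a (n - a) + e`, `e ∈ E`, has at most `r` prime factors (with
multiplicity), all larger than `y`. -/
def Almost (n : ℕ) (E : Finset ℤ) (r : ℕ) (y : ℝ) (a : ℕ) : Prop :=
  Rough n E y a ∧ ∀ e ∈ E, ((a : ℤ) * ((n : ℤ) - a) + e).natAbs.primeFactorsList.length ≤ r

open Classical in
/-- the number of the classes `c` modulo `p` for which `p` divides one of the `c (n - c) + e` -/
noncomputable def nu (n : ℕ) (E : Finset ℤ) (p : ℕ) : ℕ :=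
  ((Finset.range p).filter (fun c : ℕ => ∃ e ∈ E, (p : ℤ) ∣ (c : ℤ) * ((n : ℤ) - c) + e)).card

/-- the sieve density: the product of `1 - ν(p) / p` over the primes `p ≤ y` -/
noncomputable def V (n : ℕ) (E : Finset ℤ) (y : ℝ) : ℝ :=
  ∏ p ∈ (Finset.Ioc 0 ⌊y⌋₊).filter Nat.Prime, (1 - (nu n E p : ℝ) / p)

/-- `m` is a term of a progression of `k` terms of `S` with a difference `d`, `1 ≤ d ≤ L`. -/
def InProgression (k : ℕ) (L : ℝ) (S : Set ℕ) (m : ℕ) : Prop :=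
  ∃ a d : ℕ, 1 ≤ d ∧ (d : ℝ) ≤ L ∧ (∀ j < k, a + j * d ∈ S) ∧ ∃ j < k, m = a + j * d

open Finset Filter
open Pool.Agent.Y987.SZ
open Pool.Agent.Y987.SZ.PolyU
open Pool.Agent.Y843.HS (Pr VV)

/-- the values -/
def ff (n : ℕ) (e : ℤ) (a : ℕ) : ℤ := (a : ℤ) * ((n : ℤ) - a) + e

lemma V_eq (n : ℕ) (E : Finset ℤ) (y : ℝ) : V n E y = VV (ZF E (ff n)) 0 ⌊y⌋₊ := rfl

lemma rough_iff (n : ℕ) (hn : 1 ≤ n) (E : Finset ℤ) (y : ℝ) (a : ℕ) :
    RoughF E (ff n) (n - 1) y a ↔ Rough n E y a := by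
  unfold RoughF Rough ff
  constructor
  · rintro ⟨h1, h2, h3⟩
    exact ⟨h1, by omega, h3⟩
  · rintro ⟨h1, h2, h3⟩
    exact ⟨h1, by omega, h3⟩

lemma per (n : ℕ) (E : Finset ℤ) : Per E (ff n) := by
  intro e _ p a _
  apply dvd_iff_dvd_of_dvd_sub
  have h : ((a % p : ℕ) : ℤ) ≡ (a : ℤ) [ZMOD (p : ℤ)] := by
    push_cast
    exact Int.mod_modEq _ _
  have h2 : ff n e (a % p) ≡ ff n e a [ZMOD (p : ℤ)] :=
    Int.ModEq.add_right e (h.mul (Int.ModEq.sub_left (n : ℤ) h))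
  exact h2.dvd

lemma not_dvd {p a b : ℕ} (ha : a < p) (hb : b < p) (hab : a ≠ b) : ¬ (p : ℤ) ∣ (a : ℤ) - b := by
  intro h
  have h1 : |(a : ℤ) - b| < p := by
    rw [abs_lt]
    constructor <;> omega
  have := Int.eq_zero_of_abs_lt_dvd h h1
  omega

open Classical in
lemma two_roots (n : ℕ) (e : ℤ) {p : ℕ} (hp : p.Prime) :
    ((range p).filter (fun c : ℕ => (p : ℤ) ∣ ff n e c)).card ≤ 2 := by
  by_contra hcon
  push Not at hcon
  obtain ⟨a, ha, b, hb, c, hc, hab, hac, hbc⟩ := Finset.two_lt_card.1 hcon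
  rw [mem_filter, mem_range] at ha hb hc
  have hpz : Prime (p : ℤ) := Nat.prime_iff_prime_int.1 hp
  have key : ∀ x y : ℕ, x < p → y < p → x ≠ y → (p : ℤ) ∣ ff n e x → (p : ℤ) ∣ ff n e y →
      (p : ℤ) ∣ (n : ℤ) - x - y := by
    intro x y hx hy hxy h1 h2
    have h3 : (p : ℤ) ∣ ((x : ℤ) - y) * ((n : ℤ) - x - y) := by
      have h4 : ((x : ℤ) - y) * ((n : ℤ) - x - y) = ff n e x - ff n e y := by
        unfold ff
        ring
      rw [h4]
      exact dvd_sub h1 h2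
    exact (hpz.dvd_or_dvd h3).resolve_left (not_dvd hx hy hxy)
  have h1 := key a b ha.1 hb.1 hab ha.2 hb.2
  have h2 := key a c ha.1 hc.1 hac ha.2 hc.2
  have h3 : (p : ℤ) ∣ (b : ℤ) - c := by
    have h4 : (b : ℤ) - c = ((n : ℤ) - a - c) - ((n : ℤ) - a - b) := by ring
    rw [h4]
    exact dvd_sub h2 h1
  exact not_dvd hb.1 hc.1 hbc h3

lemma card_le (n : ℕ) (E : Finset ℤ) (hE : E ⊆ {1, -1}) (p : ℕ) (hp : p.Prime) :
    (ZF E (ff n) p).card ≤ 4 ∧ (ZF E (ff n) p).card < p := by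
  classical
  constructor
  · have h1 : ZF E (ff n) p ⊆ (range p).filter (fun c : ℕ => (p : ℤ) ∣ ff n 1 c) ∪
        (range p).filter (fun c : ℕ => (p : ℤ) ∣ ff n (-1) c) := by
      intro c hc
      obtain ⟨h1, e, he, hd⟩ := mem_filter.1 hc
      have h2 := hE he
      rw [mem_insert, mem_singleton] at h2
      rw [mem_union, mem_filter, mem_filter]
      rcases h2 with h2 | h2
      · left
        rw [h2] at hd
        exact ⟨h1, hd⟩
      · right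
        rw [h2] at hd
        exact ⟨h1, hd⟩
    refine (card_le_card h1).trans ((card_union_le _ _).trans ?_)
    have h2 := two_roots n 1 hp
    have h3 := two_roots n (-1) hp
    omega
  · have h1 : ZF E (ff n) p ⊆ (range p).erase 0 := by
      intro c hc
      obtain ⟨h1, e, he, hd⟩ := mem_filter.1 hc
      rw [mem_erase]
      refine ⟨?_, h1⟩
      rintro rfl
      have h2 := hE he
      rw [mem_insert, mem_singleton] at h2
      have h3 : (p : ℤ) ∣ 1 := by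
        rcases h2 with h2 | h2
        · rw [h2] at hd
          simpa [ff] using hd
        · rw [h2] at hd
          simpa [ff] using hd
      have h4 : p ∣ 1 := by exact_mod_cast h3
      exact hp.one_lt.ne' (Nat.dvd_one.1 h4)
    have h2 := card_le_card h1
    rw [card_erase_of_mem (mem_range.2 hp.pos), card_range] at h2
    have := hp.pos
    omega

/-- **Splittings `n = a + b` with `a b + e` almost prime.** -/
theorem result : ∃ (κ₀ c : ℝ) (r : ℕ), 0 < κ₀ ∧ 0 < c ∧ ∀ k : ℕ, ∀ κ ε : ℝ, 0 < κ → 0 < ε →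
    ∃ B n₀ : ℕ, ∀ n : ℕ, n₀ ≤ n → ∀ E : Finset ℤ, E ⊆ {1, -1} →
      (∀ y : ℝ, 0 ≤ y → 0 < V n E y) ∧
      c * (n * V n E (((n - 1 : ℕ) : ℝ) ^ κ₀)) ≤
        ({a | Almost n E r (((n - 1 : ℕ) : ℝ) ^ κ₀) a}.ncard : ℝ) ∧
      (∃ a d : ℕ, 1 ≤ d ∧ (d : ℝ) ≤ Real.log n ^ B ∧
        ∀ j < k, Almost n E r (((n - 1 : ℕ) : ℝ) ^ κ₀) (a + j * d)) ∧
      ∀ S : Set ℕ, (∀ a ∈ S, Rough n E (((n - 1 : ℕ) : ℝ) ^ κ) a) →
        ({a ∈ S | ¬ InProgression (k + 1) (Real.log n ^ B) S a}.ncard : ℝ) ≤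
          ε * (n * V n E (((n - 1 : ℕ) : ℝ) ^ κ)) := by
  obtain ⟨κ₀, c, r, hκ₀, hc, H⟩ := PolyU.main 4
  refine ⟨κ₀, c / 2, r, hκ₀, by positivity, ?_⟩
  intro k κ ε hκ hε
  obtain ⟨B, X₀, h⟩ := H k κ ε hκ hε
  refine ⟨B, X₀ + 5, ?_⟩
  intro n hn E hE
  have hcard := card_le n E hE
  obtain ⟨h1, h2, h3, h4⟩ := h (n - 1) (by omega) E (ff n) (per n E) hcard
  have hn5 : 5 ≤ n := by omega
  have hn1 : 1 ≤ n := by omega
  have hcast : ((n - 1 : ℕ) : ℝ) = (n : ℝ) - 1 := by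
    rw [Nat.cast_sub hn1, Nat.cast_one]
  have hnr : (5 : ℝ) ≤ n := by exact_mod_cast hn5
  have hlog : Real.log ((n - 1 : ℕ) : ℝ) ^ B ≤ Real.log n ^ B := by
    apply pow_le_pow_left₀ (Real.log_nonneg (by rw [hcast]; linarith))
    apply Real.log_le_log (by rw [hcast]; linarith)
    rw [hcast]
    linarith
  have hV : ∀ y : ℝ, 0 ≤ y → 0 < V n E y := fun y hy => by
    rw [V_eq]
    exact VV_pos (adm_of hcard y) hy 0
  -- the number of prime factors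
  have halm : ∀ a : ℕ, RoughF E (ff n) (n - 1) (((n - 1 : ℕ) : ℝ) ^ κ₀) a →
      Almost n E r (((n - 1 : ℕ) : ℝ) ^ κ₀) a := by
    intro a ha
    have hr := (rough_iff n hn1 E _ a).1 ha
    refine ⟨hr, ?_⟩
    intro e he
    apply h1 _ _ (fun p hp hd => hr.2.2 e he p hp hd)
    have h2 := hE he
    rw [mem_insert, mem_singleton] at h2
    have e1 : ((n - 1 : ℕ) : ℤ) = (n : ℤ) - 1 := by omega
    rw [e1]
    have ha0 : (1 : ℤ) ≤ a := by exact_mod_cast hr.1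
    have ha1 : (a : ℤ) ≤ (n : ℤ) - 1 := by
      have := hr.2.1
      omega
    have hnz : (5 : ℤ) ≤ n := by exact_mod_cast hn5
    have h5 : 0 ≤ (a : ℤ) * ((n : ℤ) - a) := mul_nonneg (by linarith) (by linarith)
    have h6 : (a : ℤ) * ((n : ℤ) - a) ≤ ((n : ℤ) - 1) * ((n : ℤ) - 1) :=
      mul_le_mul ha1 (by linarith) (by linarith) (by linarith)
    have h7 : ((n : ℤ) - 1) * ((n : ℤ) - 1) + 1 ≤ ((n : ℤ) - 1) ^ 3 := by
      have h8 : (4 : ℤ) ≤ (n : ℤ) - 1 := by linarith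
      nlinarith [mul_nonneg (sub_nonneg.2 h8) (mul_nonneg (show (0 : ℤ) ≤ (n : ℤ) - 1 by linarith)
        (show (0 : ℤ) ≤ (n : ℤ) - 1 by linarith))]
    rw [abs_le]
    rcases h2 with h2 | h2 <;> rw [h2] <;> constructor <;> linarith
  refine ⟨hV, ?_, ?_, ?_⟩
  · have hfin : {a | Almost n E r (((n - 1 : ℕ) : ℝ) ^ κ₀) a}.Finite :=
      (Set.finite_Icc 0 n).subset (fun m hm => ⟨Nat.zero_le _, hm.1.2.1.le⟩)
    have h5 : ({m | RoughF E (ff n) (n - 1) (((n - 1 : ℕ) : ℝ) ^ κ₀) m}.ncard : ℝ) ≤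
        ({a | Almost n E r (((n - 1 : ℕ) : ℝ) ^ κ₀) a}.ncard : ℝ) := by
      rw [Nat.cast_le]
      exact Set.ncard_le_ncard (fun a ha => halm a ha) hfin
    refine le_trans ?_ (h2.trans h5)
    rw [V_eq]
    have h6 : 0 < VV (ZF E (ff n)) 0 ⌊((n - 1 : ℕ) : ℝ) ^ κ₀⌋₊ :=
      hV (((n - 1 : ℕ) : ℝ) ^ κ₀) (by positivity)
    have h7 : (n : ℝ) / 2 ≤ ((n - 1 : ℕ) : ℝ) := by
      rw [hcast]
      linarith
    have h8 : (n : ℝ) / 2 * VV (ZF E (ff n)) 0 ⌊((n - 1 : ℕ) : ℝ) ^ κ₀⌋₊ ≤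
        ((n - 1 : ℕ) : ℝ) * VV (ZF E (ff n)) 0 ⌊((n - 1 : ℕ) : ℝ) ^ κ₀⌋₊ :=
      mul_le_mul_of_nonneg_right h7 h6.le
    have h9 := mul_le_mul_of_nonneg_left h8 hc.le
    linarith
  · obtain ⟨a, d, i1, i2, i3⟩ := h3
    exact ⟨a, d, i1, i2.trans hlog, fun j hj => halm _ (i3 j hj)⟩
  · intro S hS
    have h5 := h4 S (fun a ha => (rough_iff n hn1 E _ a).2 (hS a ha))
    have h6 : ({a ∈ S | ¬ InProgression (k + 1) (Real.log n ^ B) S a}.ncard : ℝ) ≤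
        ({m ∈ S | ¬ InP (k + 1) (Real.log ((n - 1 : ℕ) : ℝ) ^ B) S m}.ncard : ℝ) := by
      rw [Nat.cast_le]
      apply Set.ncard_le_ncard
      · intro m hm
        refine ⟨hm.1, ?_⟩
        intro hAP
        apply hm.2
        obtain ⟨a, d, i1, i2, i3⟩ := hAP
        exact ⟨a, d, i1, i2.trans hlog, i3⟩
      · exact ((Set.finite_Icc 0 n).subset (fun m hm => ⟨Nat.zero_le _, (hS m hm).2.1.le⟩)).subset
          (fun m hm => hm.1)
    refine h6.trans (h5.trans ?_)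
    rw [V_eq]
    have h7 : 0 < VV (ZF E (ff n)) 0 ⌊((n - 1 : ℕ) : ℝ) ^ κ⌋₊ :=
      hV (((n - 1 : ℕ) : ℝ) ^ κ) (by positivity)
    have h8 : ((n - 1 : ℕ) : ℝ) ≤ n := by
      rw [hcast]
      linarith
    exact mul_le_mul_of_nonneg_left (mul_le_mul_of_nonneg_right h8 h7.le) hε.le

end Pool.Agent.Results.MP_f8fff1_nt.AlmostPrimeSplittings
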